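import Mathlib
import Pool.Agent.Work.MP_c629c8_al.Basic

/-!
# The product of two reflexive groups is reflexive
-/

universe u v

namespace Pool.Agent.Work.MP_c629c8_al

open Topology ContinuousAddMonoidHom

section

variable (A : Type u) (B : Type v) [AddCommGroup A] [TopologicalSpace A]
  [AddCommGroup B] [TopologicalSpace B]

/-- restriction of characters of characters to the two factors -/
def prodBi (F : Dual (Dual (A × B))) : Dual (Dual A) × Dual (Dual B) :=
  (F.comp (compLeft UnitAddCircle (fst A B)), F.comp (compLeft UnitAddCircle (snd A B)))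

lemma prodBi_eta (x : A × B) : prodBi A B (eta (A × B) x) = (eta A x.1, eta B x.2) := rfl

lemma continuous_prodBi : Continuous (prodBi A B) :=
  (continuous_comp_left (compLeft UnitAddCircle (fst A B))).prodMk
    (continuous_comp_left (compLeft UnitAddCircle (snd A B)))

/-- the inverse of `prodBi` -/
def prodBiInv (p : Dual (Dual A) × Dual (Dual B)) : Dual (Dual (A × B)) :=
  p.1.comp (compLeft UnitAddCircle (inl A B)) + p.2.comp (compLeft UnitAddCircle (inr A B))

lemma continuous_prodBiInv : Continuous (prodBiInv A B) :=
  ((continuous_comp_left (compLeft UnitAddCircle (inl A B))).comp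
    continuous_fst).add
    ((continuous_comp_left (compLeft UnitAddCircle (inr A B))).comp
      continuous_snd)

lemma prodBiInv_prodBi (F : Dual (Dual (A × B))) : prodBiInv A B (prodBi A B F) = F := by
  ext χ
  have h : (compLeft UnitAddCircle (fst A B)) (compLeft UnitAddCircle (inl A B) χ) +
      (compLeft UnitAddCircle (snd A B)) (compLeft UnitAddCircle (inr A B) χ) = χ := by
    ext x
    show χ (x.1, 0) + χ (0, x.2) = χ x
    rw [← map_add]
    simp
  calc prodBiInv A B (prodBi A B F) χ
      = F ((compLeft UnitAddCircle (fst A B)) (compLeft UnitAddCircle (inl A B) χ)) +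
        F ((compLeft UnitAddCircle (snd A B)) (compLeft UnitAddCircle (inr A B) χ)) := rfl
    _ = F χ := by rw [← map_add, h]

lemma prodBi_prodBiInv (p : Dual (Dual A) × Dual (Dual B)) :
    prodBi A B (prodBiInv A B p) = p := by
  refine Prod.ext ?_ ?_
  · ext χ
    have h1 : (compLeft UnitAddCircle (inl A B)) (compLeft UnitAddCircle (fst A B) χ) = χ := by
      ext x
      rfl
    have h2 : (compLeft UnitAddCircle (inr A B)) (compLeft UnitAddCircle (fst A B) χ) = 0 := by
      ext x
      exact map_zero χ
    calc (prodBi A B (prodBiInv A B p)).1 χ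
        = p.1 ((compLeft UnitAddCircle (inl A B)) (compLeft UnitAddCircle (fst A B) χ)) +
          p.2 ((compLeft UnitAddCircle (inr A B)) (compLeft UnitAddCircle (fst A B) χ)) := rfl
      _ = p.1 χ := by rw [h1, h2, map_zero, add_zero]
  · ext χ
    have h1 : (compLeft UnitAddCircle (inl A B)) (compLeft UnitAddCircle (snd A B) χ) = 0 := by
      ext x
      exact map_zero χ
    have h2 : (compLeft UnitAddCircle (inr A B)) (compLeft UnitAddCircle (snd A B) χ) = χ := by
      ext x
      rfl
    calc (prodBi A B (prodBiInv A B p)).2 χ
        = p.1 ((compLeft UnitAddCircle (inl A B)) (compLeft UnitAddCircle (snd A B) χ)) +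
          p.2 ((compLeft UnitAddCircle (inr A B)) (compLeft UnitAddCircle (snd A B) χ)) := rfl
      _ = p.2 χ := by rw [h1, h2, map_zero, zero_add]

/-- the bidual of a product is the product of the biduals -/
def prodBiHomeo : Dual (Dual (A × B)) ≃ₜ Dual (Dual A) × Dual (Dual B) where
  toFun := prodBi A B
  invFun := prodBiInv A B
  left_inv := prodBiInv_prodBi A B
  right_inv := prodBi_prodBiInv A B
  continuous_toFun := continuous_prodBi A B
  continuous_invFun := continuous_prodBiInv A B

end

/-- the product of two reflexive groups is reflexive -/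
theorem isReflexive_prod {A : Type u} {B : Type v} [AddCommGroup A] [TopologicalSpace A]
    [AddCommGroup B] [TopologicalSpace B] (hA : IsReflexive A) (hB : IsReflexive B) :
    IsReflexive (A × B) := by
  have h : eta (A × B) = (prodBiHomeo A B).symm ∘ Prod.map (eta A) (eta B) := by
    funext x
    rw [Function.comp_apply, Homeomorph.eq_symm_apply]
    rfl
  show IsHomeomorph (eta (A × B))
  rw [h]
  exact (prodBiHomeo A B).symm.isHomeomorph.comp (IsHomeomorph.prodMap hA hB)

end Pool.Agent.Work.MP_c629c8_al
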