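import Mathlib
import Pool.Agent.Work.MP_c629c8_al.PiGood
import Pool.Agent.Work.MP_c629c8_al.Vec.ThmK
import Pool.Agent.Work.MP_c629c8_al.Bdd.ProdRefl

/-!
# Countable powers of `ℤ`, and their products with strongly reflexive groups, are reflexive
-/

universe u v

namespace Pool.Agent.Work.MP_c629c8_al

open Topology

theorem stronglyReflexive_int {J : Type u} [Countable J] : StronglyReflexive (J → ℤ) := by
  exact stronglyReflexive_pi (Set.to_countable _)

theorem isReflexive_int {J : Type u} [Countable J] : IsReflexive (J → ℤ) := by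
  obtain ⟨U, hU⟩ := exists_goodSeq_pi (I := J) (D := fun _ => ℤ) (Set.to_countable _)
  exact isReflexive_of_good linComplete_pi hU

theorem StronglyReflexive.isReflexive_self {P : Type v} [AddCommGroup P] [TopologicalSpace P]
    [IsTopologicalAddGroup P] (h : StronglyReflexive P) : IsReflexive P := by
  let f : (⊤ : AddSubgroup P) →ₜ+ P := ⟨(⊤ : AddSubgroup P).subtype, continuous_subtype_val⟩
  let g : P →ₜ+ (⊤ : AddSubgroup P) :=
    { toFun := fun y => ⟨y, AddSubgroup.mem_top y⟩
      map_zero' := rfl
      map_add' := fun _ _ => rfl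
      continuous_toFun := continuous_id.subtype_mk _ }
  exact IsReflexive.of_iso f g (fun _ => rfl) (fun _ => rfl) (h ⊤ isClosed_univ).1

/-- `ℤ^J × P` is reflexive -/
theorem isReflexive_int_prod {J : Type u} [Countable J] {P : Type v} [AddCommGroup P]
    [TopologicalSpace P] [IsTopologicalAddGroup P] (h : StronglyReflexive P) :
    IsReflexive ((J → ℤ) × P) :=
  isReflexive_prod isReflexive_int h.isReflexive_self

end Pool.Agent.Work.MP_c629c8_al
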