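import Mathlib
import Pool.Agent.Work.MP_c629c8_al.Vec.ThmK

/-!
# The evaluation map of a quotient of a reflexive group is continuous
-/

universe u

namespace Pool.Agent.Work.MP_c629c8_al

open Topology

theorem eta_continuous_quotient {E : Type u} [AddCommGroup E] [TopologicalSpace E]
    [IsTopologicalAddGroup E] (hE : IsReflexive E) (H : AddSubgroup E) :
    Continuous (eta (E ⧸ H)) := by
  let q : E →ₜ+ E ⧸ H := ⟨QuotientAddGroup.mk' H, continuous_quot_mk⟩
  refine eta_continuous fun F hF U hU h0 => ?_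
  have h1 : IsCompact (dualMap q '' F) := hF.image (dualMap q).continuous_toFun
  have h2 := equi_of_eta_continuous hE.continuous h1 hU h0
  have h3 : 𝓝 (0 : E ⧸ H) = Filter.map (QuotientAddGroup.mk) (𝓝 (0 : E)) :=
    QuotientAddGroup.nhds_eq H 0
  refine h3 ▸ Filter.eventually_map.2 ?_
  filter_upwards [h2] with x hx χ hχ
  exact hx _ ⟨χ, hχ, rfl⟩

end Pool.Agent.Work.MP_c629c8_al
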