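import Mathlib

/-!
# Closed subgroups of `ℤ ^ J`, `J` countable: `A` is compact plus `m A`
-/

universe u v w

namespace Pool.Agent.Work.MP_c629c8_al

open Topology

namespace IntCl

variable {J : Type u} (e : J → ℕ) (A : AddSubgroup (J → ℤ))

/-- The elements of `A` that vanish at all `j` with `e j < n`. -/
def An (n : ℕ) : AddSubgroup (J → ℤ) where
  carrier := {a | a ∈ A ∧ ∀ j, e j < n → a j = 0}
  zero_mem' := ⟨A.zero_mem, fun _ _ => rfl⟩
  add_mem' := fun ha hb => ⟨A.add_mem ha.1 hb.1, fun j hj => by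
    rw [Pi.add_apply, ha.2 j hj, hb.2 j hj, add_zero]⟩
  neg_mem' := fun ha => ⟨A.neg_mem ha.1, fun j hj => by
    rw [Pi.neg_apply, ha.2 j hj, neg_zero]⟩

lemma mem_An {n : ℕ} {a : J → ℤ} : a ∈ An e A n ↔ a ∈ A ∧ ∀ j, e j < n → a j = 0 := Iff.rfl

lemma exists_gen (he : Function.Injective e) (n : ℕ) :
    ∃ a ∈ An e A n, ∀ r ∈ An e A n, ∃ k : ℤ, r - k • a ∈ An e A (n + 1) := by
  by_cases h : ∃ j, e j = n
  · obtain ⟨j, hj⟩ := h
    obtain ⟨d, hd⟩ := Int.subgroup_cyclic
      ((An e A n).map (Pi.evalAddMonoidHom (fun _ : J => ℤ) j))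
    have hdm : d ∈ (An e A n).map (Pi.evalAddMonoidHom (fun _ : J => ℤ) j) := by
      rw [hd]
      exact AddSubgroup.subset_closure (Set.mem_singleton d)
    obtain ⟨a, ha, had⟩ := hdm
    refine ⟨a, ha, fun r hr => ?_⟩
    have hrm : (Pi.evalAddMonoidHom (fun _ : J => ℤ) j) r ∈
        (An e A n).map (Pi.evalAddMonoidHom (fun _ : J => ℤ) j) := ⟨r, hr, rfl⟩
    rw [hd, AddSubgroup.mem_closure_singleton] at hrm
    obtain ⟨k, hk⟩ := hrm
    refine ⟨k, ?_⟩
    have hmem : r - k • a ∈ An e A n :=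
      (An e A n).sub_mem hr ((An e A n).zsmul_mem ha k)
    refine ⟨hmem.1, fun i hi => ?_⟩
    rcases Nat.lt_succ_iff_lt_or_eq.1 hi with h1 | h1
    · exact hmem.2 i h1
    · have hij : i = j := he (h1.trans hj.symm)
      subst hij
      have h2 : r i = k • d := hk.symm
      have h3 : a i = d := had
      rw [Pi.sub_apply, Pi.smul_apply, h2, h3, sub_self]
  · refine ⟨0, (An e A n).zero_mem, fun r hr => ⟨0, ?_⟩⟩
    rw [zero_smul, sub_zero]
    refine ⟨hr.1, fun i hi => ?_⟩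
    rcases Nat.lt_succ_iff_lt_or_eq.1 hi with h1 | h1
    · exact hr.2 i h1
    · exact absurd ⟨i, h1⟩ h

/-- The pointwise finite sum `Σ t n • g n`. -/
def Phi (g : ℕ → J → ℤ) (t : ℕ → ℤ) : J → ℤ :=
  fun j => ∑ n ∈ Finset.range (e j + 1), t n * g n j

lemma continuous_Phi (g : ℕ → J → ℤ) : Continuous (Phi e g) := by
  refine continuous_pi fun j => ?_
  refine continuous_finsetSum _ fun n _ => ?_
  exact (continuous_apply n).mul continuous_const

lemma Phi_eq_partial {g : ℕ → J → ℤ} (hg : ∀ n, g n ∈ An e A n) (t : ℕ → ℤ) (j : J) {N : ℕ}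
    (hN : e j + 1 ≤ N) : (∑ n ∈ Finset.range N, t n • g n) j = Phi e g t j := by
  rw [Finset.sum_apply]
  unfold Phi
  symm
  refine Finset.sum_subset_zero_on_sdiff (Finset.range_mono hN) (fun n hn => ?_) (fun n _ => ?_)
  · rw [Finset.mem_sdiff, Finset.mem_range, Finset.mem_range] at hn
    rw [Pi.smul_apply, (hg n).2 j (by omega), smul_zero]
  · rw [Pi.smul_apply, smul_eq_mul]

lemma Phi_mem (hA : IsClosed (A : Set (J → ℤ))) {g : ℕ → J → ℤ} (hg : ∀ n, g n ∈ An e A n)
    (t : ℕ → ℤ) : Phi e g t ∈ A := by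
  have h1 : Filter.Tendsto (fun N => ∑ n ∈ Finset.range N, t n • g n) Filter.atTop
      (𝓝 (Phi e g t)) := by
    rw [tendsto_pi_nhds]
    intro j
    refine tendsto_const_nhds.congr' ?_
    filter_upwards [Filter.eventually_ge_atTop (e j + 1)] with N hN
    exact (Phi_eq_partial e A hg t j hN).symm
  refine hA.mem_of_tendsto h1 (Filter.Eventually.of_forall fun N => ?_)
  exact A.sum_mem fun n _ => A.zsmul_mem (hg n).1 (t n)

lemma exists_expansion {g : ℕ → J → ℤ}
    (hg' : ∀ n, ∀ r ∈ An e A n, ∃ k : ℤ, r - k • g n ∈ An e A (n + 1)) {a : J → ℤ}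
    (ha : a ∈ A) : ∃ t : ℕ → ℤ, ∀ N, a - ∑ n ∈ Finset.range N, t n • g n ∈ An e A N := by
  classical
  choose! k hk using hg'
  let r : ℕ → (J → ℤ) := fun n => Nat.rec a (fun i ri => ri - k i ri • g i) n
  have hr0 : r 0 = a := rfl
  have hrs : ∀ n, r (n + 1) = r n - k n (r n) • g n := fun n => rfl
  have hr : ∀ n, r n ∈ An e A n := by
    intro n
    induction n with
    | zero => exact ⟨ha, fun j hj => absurd hj (Nat.not_lt_zero _)⟩
    | succ n ih =>
      rw [hrs]
      exact hk n (r n) ih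
  refine ⟨fun n => k n (r n), fun N => ?_⟩
  have h2 : ∀ N, a - ∑ n ∈ Finset.range N, k n (r n) • g n = r N := by
    intro N
    induction N with
    | zero => rw [Finset.sum_range_zero, sub_zero, hr0]
    | succ N ih =>
      rw [Finset.sum_range_succ, ← sub_sub, ih, hrs]
  rw [h2 N]
  exact hr N

end IntCl

open IntCl in
/-- For a closed subgroup `A` of `ℤ ^ J`, `J` countable, and `m ≠ 0`, every element of `A` is the
sum of an element of a fixed compact subset of `A` and an element of `m A`. -/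
theorem exists_compact_add_mul {J : Type u} [Countable J] (A : AddSubgroup (J → ℤ))
    (hA : IsClosed (A : Set (J → ℤ))) (m : ℕ) (hm : m ≠ 0) :
    ∃ K : Set (J → ℤ), IsCompact K ∧ K ⊆ A ∧ ∀ a ∈ A, ∃ k ∈ K, ∃ b ∈ A, a = k + m • b := by
  obtain ⟨e, he⟩ := Countable.exists_injective_nat J
  choose g hg hg' using exists_gen e A he
  have hm' : (0 : ℤ) < (m : ℤ) := by exact_mod_cast Nat.pos_of_ne_zero hm
  refine ⟨Phi e g '' Set.pi Set.univ (fun _ : ℕ => Set.Ico (0 : ℤ) m), ?_, ?_, ?_⟩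
  · exact (isCompact_univ_pi fun _ => (Set.finite_Ico (0 : ℤ) m).isCompact).image
      (continuous_Phi e g)
  · rintro _ ⟨t, _, rfl⟩
    exact Phi_mem e A hA hg t
  · intro a ha
    obtain ⟨t, ht⟩ := exists_expansion e A hg' ha
    refine ⟨Phi e g (fun n => t n % m), ⟨fun n => t n % m, fun n _ => ?_, rfl⟩,
      Phi e g (fun n => t n / m), Phi_mem e A hA hg _, ?_⟩
    · exact ⟨Int.emod_nonneg _ hm'.ne', Int.emod_lt_of_pos _ hm'⟩
    · funext j
      have h1 : a j - (∑ n ∈ Finset.range (e j + 1), t n • g n) j = 0 :=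
        (ht (e j + 1)).2 j (Nat.lt_succ_self _)
      rw [Phi_eq_partial e A hg t j le_rfl, sub_eq_zero] at h1
      rw [h1, Pi.add_apply, Pi.smul_apply]
      unfold Phi
      rw [nsmul_eq_mul, Finset.mul_sum, ← Finset.sum_add_distrib]
      refine Finset.sum_congr rfl fun n _ => ?_
      have h2 : t n = t n % m + m * (t n / m) := (Int.emod_add_mul_ediv (t n) m).symm
      conv_lhs => rw [h2]
      push_cast
      ring

end Pool.Agent.Work.MP_c629c8_al
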