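import Mathlib
import Pool.Agent.Work.MP_c629c8_al.Vec.ThmK
import Pool.Agent.Work.MP_c629c8_al.Bdd.IntCl

/-!
# Extensions of strongly reflexive groups by compact groups
-/

universe u v w

namespace Pool.Agent.Work.MP_c629c8_al

open Topology

/-- extensions of strongly reflexive nonarchimedean groups by compact groups -/
theorem StronglyReflexive.compact_ext {G : Type u} {P : Type v} [AddCommGroup G]
    [TopologicalSpace G] [IsTopologicalAddGroup G] [T2Space G] [AddCommGroup P]
    [TopologicalSpace P] [NonarchimedeanAddGroup P] (h : StronglyReflexive P)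
    (p : G →ₜ+ P) (hp : Function.Surjective p) (hpo : IsOpenMap p)
    (hK : IsCompact {g | p g = 0}) (hsep : ∀ g, p g = 0 → g ≠ 0 → ∃ χ : Dual G, χ g ≠ 0) :
    StronglyReflexive G := by
  let i : P →ₜ+ (PEmpty.{v + 1} → ℝ) × P :=
    { toFun := fun y => (0, y)
      map_zero' := rfl
      map_add' := fun a b => Prod.ext (zero_add (0 : PEmpty.{v + 1} → ℝ)).symm rfl
      continuous_toFun := continuous_const.prodMk continuous_id }
  have his : Function.Surjective i := fun z => ⟨z.2, Prod.ext (Subsingleton.elim _ _) rfl⟩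
  have hio : IsOpenMap i := by
    intro W hW
    have h1 : i '' W = Set.univ ×ˢ W := by
      ext z
      constructor
      · rintro ⟨y, hy, rfl⟩
        exact ⟨trivial, hy⟩
      · rintro ⟨-, hz⟩
        exact ⟨z.2, hz, Prod.ext (Subsingleton.elim _ _) rfl⟩
    rw [h1]
    exact isOpen_univ.prod hW
  have hvec : StronglyReflexive ((PEmpty.{v + 1} → ℝ) × P) := by
    refine h.of_compact_ker i his hio ?_
    have h1 : {y | i y = 0} = {0} := by
      ext y
      constructor
      · intro hy
        exact congrArg Prod.snd hy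
      · intro hy
        have hy' : y = 0 := hy
        show i y = 0
        rw [hy', map_zero]
    rw [h1]
    exact isCompact_singleton
  refine stronglyReflexive_of_vec (J := PEmpty.{v + 1}) (i.comp p) (his.comp hp) (hio.comp hpo)
    ?_ ?_ hvec
  · have h1 : {g | (i.comp p) g = 0} = {g | p g = 0} := by
      ext g
      constructor
      · intro hg
        exact congrArg Prod.snd hg
      · intro hg
        exact Prod.ext rfl hg
    rw [h1]
    exact hK
  · intro g hg hg0
    exact hsep g (congrArg Prod.snd hg) hg0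

/-- a closed group of integral sequences, times a strongly reflexive group, modulo the multiples
of an integer in the first factor -/
theorem stronglyReflexive_mod_mul {J : Type u} [Countable J] {P : Type v} [AddCommGroup P]
    [TopologicalSpace P] [NonarchimedeanAddGroup P] [T2Space P] (h : StronglyReflexive P)
    (A : AddSubgroup (J → ℤ)) (hA : IsClosed (A : Set (J → ℤ))) (m : ℕ) (hm : m ≠ 0)
    (M : AddSubgroup (A × P)) (hM : ∀ z, z ∈ M ↔ (∃ b : A, z.1 = m • b) ∧ z.2 = 0) :
    StronglyReflexive ((A × P) ⧸ M) := by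
  have hNJ : NonarchimedeanAddGroup (J → ℤ) := inferInstance
  -- `M` is closed
  have hMc : IsClosed (M : Set (A × P)) := by
    have h1 : (M : Set (A × P)) = {z | (∀ j, (m : ℤ) ∣ (z.1 : J → ℤ) j) ∧
        (fun j => (z.1 : J → ℤ) j / (m : ℤ)) ∈ A ∧ z.2 = 0} := by
      ext z
      rw [SetLike.mem_coe, hM]
      have hm' : (m : ℤ) ≠ 0 := Int.natCast_ne_zero.2 hm
      constructor
      · rintro ⟨⟨b, hb⟩, hz⟩
        have hb' : ∀ j, (z.1 : J → ℤ) j = (m : ℤ) * (b : J → ℤ) j := by
          intro j
          rw [hb, AddSubgroup.coe_nsmul, Pi.smul_apply, nsmul_eq_mul]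
        refine ⟨fun j => ⟨_, hb' j⟩, ?_, hz⟩
        have h2 : (fun j => (z.1 : J → ℤ) j / (m : ℤ)) = (b : J → ℤ) := by
          funext j
          rw [hb' j, Int.mul_ediv_cancel_left _ hm']
        rw [h2]
        exact b.2
      · rintro ⟨h2, h3, hz⟩
        refine ⟨⟨⟨_, h3⟩, Subtype.ext ?_⟩, hz⟩
        funext j
        rw [AddSubgroup.coe_nsmul, Pi.smul_apply, nsmul_eq_mul]
        exact (Int.mul_ediv_cancel' (h2 j)).symm
    rw [h1]
    have hc : Continuous (fun z : A × P => (z.1 : J → ℤ)) :=
      continuous_subtype_val.comp continuous_fst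
    refine IsClosed.inter ?_ (IsClosed.inter ?_ ?_)
    · have h2 : {z : A × P | ∀ j, (m : ℤ) ∣ (z.1 : J → ℤ) j} =
          ⋂ j, (fun z : A × P => (z.1 : J → ℤ) j) ⁻¹' {t | (m : ℤ) ∣ t} := by
        ext z
        simp only [Set.mem_ofPred_eq, Set.mem_iInter, Set.mem_preimage]
      have h3 : IsClosed (⋂ j, (fun z : A × P => (z.1 : J → ℤ) j) ⁻¹' {t | (m : ℤ) ∣ t}) :=
        isClosed_iInter fun j => (isClosed_discrete _).preimage ((continuous_apply j).comp hc)
      rw [← h2] at h3
      exact h3
    · have h4 : Continuous (fun z : A × P => fun j => (z.1 : J → ℤ) j / (m : ℤ)) :=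
        continuous_pi fun j => (continuous_of_discreteTopology
          (f := fun t : ℤ => t / (m : ℤ))).comp ((continuous_apply j).comp hc)
      exact hA.preimage h4
    · exact isClosed_singleton.preimage continuous_snd
  have hT2 : T2Space ((A × P) ⧸ M) := by
    have : IsClosed (M : Set (A × P)) := hMc
    infer_instance
  -- the second coordinate
  let F : (A × P) ⧸ M →+ P := QuotientAddGroup.lift M (AddMonoidHom.snd A P)
    (fun z hz => ((hM z).1 hz).2)
  let p : (A × P) ⧸ M →ₜ+ P := ⟨F, continuous_quot_lift _ continuous_snd⟩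
  have hpm : ∀ z : A × P, p (QuotientAddGroup.mk z) = z.2 := fun z => rfl
  have hps : Function.Surjective p := fun y => ⟨QuotientAddGroup.mk (0, y), rfl⟩
  have hpo : IsOpenMap p := by
    intro W hW
    have h1 : p '' W = Prod.snd '' ((QuotientAddGroup.mk : A × P → (A × P) ⧸ M) ⁻¹' W) := by
      ext b
      constructor
      · rintro ⟨a, ha, rfl⟩
        obtain ⟨x, rfl⟩ := QuotientAddGroup.mk_surjective a
        exact ⟨x, ha, rfl⟩
      · rintro ⟨x, hx, rfl⟩
        exact ⟨QuotientAddGroup.mk x, hx, rfl⟩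
    rw [h1]
    exact isOpenMap_snd _ (hW.preimage continuous_quot_mk)
  refine h.compact_ext p hps hpo ?_ ?_
  · obtain ⟨K, hK, hKA, hKm⟩ := exists_compact_add_mul A hA m hm
    let K' : Set A := Subtype.val ⁻¹' K
    have hK' : IsCompact K' := hA.isClosedEmbedding_subtypeVal.isCompact_preimage hK
    have h1 : {q | p q = 0} =
        (QuotientAddGroup.mk : A × P → (A × P) ⧸ M) '' (K' ×ˢ {(0 : P)}) := by
      ext q
      constructor
      · intro hq
        obtain ⟨⟨a, y⟩, rfl⟩ := QuotientAddGroup.mk_surjective q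
        have hy : y = 0 := hq
        obtain ⟨k, hk, b, hb, hkb⟩ := hKm a a.2
        refine ⟨(⟨k, hKA hk⟩, 0), ⟨hk, rfl⟩, ?_⟩
        rw [QuotientAddGroup.eq, hM]
        refine ⟨⟨⟨b, hb⟩, Subtype.ext ?_⟩, ?_⟩
        · show -k + (a : J → ℤ) = ((m • (⟨b, hb⟩ : A) : A) : J → ℤ)
          rw [hkb, neg_add_cancel_left, AddSubgroup.coe_nsmul]
        · show -(0 : P) + y = 0
          rw [hy, neg_zero, zero_add]
      · rintro ⟨⟨a, y⟩, ⟨-, hy⟩, rfl⟩
        exact hy
    rw [h1]
    exact (hK'.prod isCompact_singleton).image continuous_quot_mk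
  · intro q _ hq
    obtain ⟨N, hN⟩ := exists_open_not_mem hq
    obtain ⟨χ, -, hχ⟩ := exists_dual_ne_zero N hN
    exact ⟨χ, hχ⟩

end Pool.Agent.Work.MP_c629c8_al
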