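import Mathlib
import Pool.Agent.Work.MP_c629c8_al.Vec.CompQ
import Pool.Agent.Work.MP_c629c8_al.Vec.Surj
import Pool.Agent.Work.MP_c629c8_al.Vec.VecExt
import Pool.Agent.Work.MP_c629c8_al.Vec.SubQ
import Pool.Agent.Work.MP_c629c8_al.PiGood
import Pool.Agent.Work.MP_c629c8_al.Bdd.CompExt

/-!
# Quotients of `ℤ^J × P`: the evaluation map is surjective
-/

universe u v w

namespace Pool.Agent.Work.MP_c629c8_al

open Topology

section retract

variable {X : Type u} {Y : Type v} [AddCommGroup X] [TopologicalSpace X]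
  [NonarchimedeanAddGroup X] [AddCommGroup Y] [TopologicalSpace Y]

/-- surjectivity of the evaluation map for an extension, if the kernel is a retract modulo a
compact group -/
theorem eta_surjective_of_retract (q : X →ₜ+ Y) (hq : Function.Surjective q) (hqo : IsOpenMap q)
    (hY : Function.Surjective (eta Y)) (B : AddSubgroup X) (hB : ∀ x, x ∈ B ↔ q x = 0)
    (hBs : Function.Surjective (eta B)) (C : AddSubgroup B) (hC : IsCompact (C : Set B))
    (r : X →ₜ+ B ⧸ C) (hr : ∀ b : B, r (b : X) = QuotientAddGroup.mk b) :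
    Function.Surjective (eta X) := by
  intro Ψ
  obtain ⟨y₀, hy₀⟩ := hY (Ψ.comp (dualMap q))
  obtain ⟨x₀, rfl⟩ := hq y₀
  let Ψ' : Dual (Dual X) := Ψ - eta X x₀
  have hΨ'a : ∀ χ : Dual X, Ψ' χ = Ψ χ - χ x₀ := fun χ => rfl
  have hΨ' : ∀ ζ : Dual Y, Ψ' (dualMap q ζ) = 0 := by
    intro ζ
    have h1 : eta Y (q x₀) ζ = Ψ (dualMap q ζ) := DFunLike.congr_fun hy₀ ζ
    rw [hΨ'a, ← h1, sub_eq_zero]
    rfl
  have hfac : ∀ χ : Dual X, (∀ b : B, χ b = 0) → Ψ' χ = 0 := by
    intro χ hχ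
    obtain ⟨ζ, rfl⟩ := CompQ.exists_dualMap_eq q hq hqo χ (fun x hx => hχ ⟨x, (hB x).2 hx⟩)
    exact hΨ' ζ
  choose ext hext using (exists_extension_nonarch B)
  have hres : ∀ (ξ : Dual B) (χ : Dual X), (∀ b : B, χ b = ξ b) → Ψ' (ext ξ) = Ψ' χ := by
    intro ξ χ h
    rw [← sub_eq_zero, ← map_sub]
    apply hfac
    intro b
    show ext ξ b - χ b = 0
    rw [hext, h, sub_self]
  let Φ₀ : Dual B →+ UnitAddCircle :=
    { toFun := fun ξ => Ψ' (ext ξ)
      map_zero' := by
        rw [hres 0 0 (fun b => rfl), map_zero]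
      map_add' := fun ξ ξ' => by
        rw [hres (ξ + ξ') (ext ξ + ext ξ') (fun b => by
          show ext ξ b + ext ξ' b = ξ b + ξ' b
          rw [hext, hext]), map_add] }
  have hΦ₀ : ∀ (ξ : Dual B) (χ : Dual X), (∀ b : B, χ b = ξ b) → Φ₀ ξ = Ψ' χ := hres
  have hc : Continuous Φ₀ := by
    apply continuous_of_continuousAt_zero Φ₀
    rw [ContinuousAt, map_zero]
    intro V hV
    obtain ⟨ε, hε, hεV⟩ := Metric.mem_nhds_iff.1 hV
    have hW : Ψ' ⁻¹' (Metric.ball 0 ε) ∈ 𝓝 (0 : Dual X) := by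
      apply Ψ'.continuous_toFun.continuousAt.preimage_mem_nhds
      have h0 : Ψ'.toFun 0 = 0 := map_zero Ψ'
      rw [h0]
      exact Metric.ball_mem_nhds _ hε
    obtain ⟨C₁, hC₁, δ, hδ, h1⟩ := SurjAux.exists_of_mem_nhds hW
    let π : B →ₜ+ B ⧸ C := SubQAux.mkHom C
    have hπs : Function.Surjective π := SubQAux.mkHom_surjective C
    have hπo : IsOpenMap π := SubQAux.mkHom_isOpenMap C
    have hker : {b | π b = 0} = (C : Set B) := by
      ext b
      exact SubQAux.mkHom_eq_zero C b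
    have hprop : IsProperMap π := isProperMap_of_compact_ker π hπs hπo (by
      rw [hker]
      exact hC)
    have hK : IsCompact (π ⁻¹' (r '' C₁)) :=
      hprop.isCompact_preimage (hC₁.image r.continuous_toFun)
    have h2 : {ξ : Dual B | ∀ c ∈ C, ξ c = 0} ∈ 𝓝 (0 : Dual B) :=
      (CompQ.isOpen_annihilator hC).mem_nhds (fun c _ => rfl)
    have h3 := SurjAux.mem_nhds (G := B) hK hδ
    have h4 : {ξ : Dual B | ∀ c ∈ C, ξ c = 0} ∩ {ξ : Dual B | ∀ b ∈ π ⁻¹' (r '' C₁), ‖ξ b‖ < δ} ∈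
        𝓝 (0 : Dual B) := Filter.inter_mem h2 h3
    show Φ₀ ⁻¹' V ∈ 𝓝 (0 : Dual B)
    refine Filter.mem_of_superset h4 ?_
    rintro ξ ⟨hξ1, hξ2⟩
    obtain ⟨ζ, hζ⟩ := CompQ.exists_dualMap_eq π hπs hπo ξ
      (fun b hb => hξ1 b ((SubQAux.mkHom_eq_zero C b).1 hb))
    have hζb : ∀ b : B, ζ (QuotientAddGroup.mk b) = ξ b := fun b => DFunLike.congr_fun hζ b
    apply hεV
    show Φ₀ ξ ∈ _
    rw [hΦ₀ ξ (ζ.comp r) (fun b => by
      show ζ (r (b : X)) = ξ b
      rw [hr, hζb])]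
    apply h1
    intro x hx
    obtain ⟨b, hb⟩ := hπs (r x)
    have h5 : (ζ.comp r) x = ξ b := by
      show ζ (r x) = ξ b
      rw [← hb]
      exact hζb b
    rw [h5]
    apply hξ2
    show π b ∈ r '' C₁
    rw [hb]
    exact ⟨x, hx, rfl⟩
  obtain ⟨z, hz⟩ := hBs ⟨Φ₀, hc⟩
  refine ⟨x₀ + z, ContinuousAddMonoidHom.ext fun χ => ?_⟩
  have h5 : eta B z (χ.comp (⟨B.subtype, continuous_subtype_val⟩ : B →ₜ+ X)) =
      Φ₀ (χ.comp (⟨B.subtype, continuous_subtype_val⟩ : B →ₜ+ X)) := DFunLike.congr_fun hz _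
  rw [hΦ₀ _ χ (fun b => rfl), hΨ'a] at h5
  have h6 : eta B z (χ.comp (⟨B.subtype, continuous_subtype_val⟩ : B →ₜ+ X)) = χ z := rfl
  rw [h6] at h5
  show χ (x₀ + z) = Ψ χ
  rw [map_add, h5, add_sub_cancel]

end retract

/-- quotients of `ℤ^J × P` by closed subgroups: the evaluation map is surjective -/
theorem eta_surjective_quotient_int {J : Type u} [Countable J] {P : Type v}
    [AddCommGroup P] [TopologicalSpace P] [NonarchimedeanAddGroup P] [T2Space P]
    (h : StronglyReflexive P) {m : ℕ} (hm : m ≠ 0) (hP : ∀ y : P, m • y = 0)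
    (H : AddSubgroup ((J → ℤ) × P)) (hH : IsClosed (H : Set ((J → ℤ) × P))) :
    Function.Surjective (eta (((J → ℤ) × P) ⧸ H)) := by
  have hNJ : NonarchimedeanAddGroup (J → ℤ) := inferInstance
  -- the closure of the first projection
  let A : AddSubgroup (J → ℤ) := (H.map (AddMonoidHom.fst (J → ℤ) P)).topologicalClosure
  have hA : IsClosed (A : Set (J → ℤ)) := AddSubgroup.isClosed_topologicalClosure _
  have hHA : ∀ z ∈ H, z.1 ∈ A := fun z hz =>
    AddSubgroup.le_topologicalClosure _ ⟨z, hz, rfl⟩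
  have hmA : ∀ a ∈ A, (m • a, (0 : P)) ∈ H := by
    have hcl : IsClosed {a : J → ℤ | (m • a, (0 : P)) ∈ H} :=
      hH.preimage ((continuous_const_smul m).prodMk continuous_const)
    intro a ha
    have h1 : (A : Set (J → ℤ)) ⊆ {a : J → ℤ | (m • a, (0 : P)) ∈ H} := by
      apply closure_minimal _ hcl
      rintro _ ⟨z, hz, rfl⟩
      show (m • z.1, (0 : P)) ∈ H
      have h2 := H.nsmul_mem hz m
      have h3 : m • z = (m • z.1, (0 : P)) := Prod.ext rfl (hP z.2)
      rwa [h3] at h2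
    exact h1 ha
  have hT2 : T2Space (((J → ℤ) × P) ⧸ H) := by
    have : IsClosed (H : Set ((J → ℤ) × P)) := hH
    infer_instance
  have hT2A : T2Space ((J → ℤ) ⧸ A) := by
    have : IsClosed (A : Set (J → ℤ)) := hA
    infer_instance
  -- the map to the quotient of the first factor
  let q : ((J → ℤ) × P) ⧸ H →ₜ+ (J → ℤ) ⧸ A :=
    ⟨QuotientAddGroup.lift H ((QuotientAddGroup.mk' A).comp (AddMonoidHom.fst (J → ℤ) P))
      (fun z hz => (QuotientAddGroup.eq_zero_iff z.1).2 (hHA z hz)),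
      continuous_quot_lift _ ((continuous_quot_mk (r := QuotientAddGroup.leftRel A)).comp
        continuous_fst)⟩
  have hqm : ∀ z : (J → ℤ) × P, q (QuotientAddGroup.mk z) = QuotientAddGroup.mk z.1 :=
    fun z => rfl
  have hqs : Function.Surjective q := by
    intro y
    obtain ⟨x, rfl⟩ := QuotientAddGroup.mk_surjective y
    exact ⟨QuotientAddGroup.mk (x, 0), rfl⟩
  have hqo : IsOpenMap q := by
    intro W hW
    have h1 : q '' W = QuotientAddGroup.mk '' (Prod.fst ''
        ((QuotientAddGroup.mk : (J → ℤ) × P → ((J → ℤ) × P) ⧸ H) ⁻¹' W)) := by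
      ext b
      constructor
      · rintro ⟨a, ha, rfl⟩
        obtain ⟨x, rfl⟩ := QuotientAddGroup.mk_surjective a
        exact ⟨x.1, ⟨x, ha, rfl⟩, rfl⟩
      · rintro ⟨_, ⟨x, hx, rfl⟩, rfl⟩
        exact ⟨QuotientAddGroup.mk x, hx, rfl⟩
    rw [h1]
    exact QuotientAddGroup.isOpenMap_coe _ (isOpenMap_fst _ (hW.preimage continuous_quot_mk))
  have hYr : IsReflexive ((J → ℤ) ⧸ A) :=
    (stronglyReflexive_pi (D := fun _ : J => ℤ) (Set.to_countable _) A hA).2
  -- the kernel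
  let B : AddSubgroup (((J → ℤ) × P) ⧸ H) := q.toAddMonoidHom.ker
  have hB : ∀ x, x ∈ B ↔ q x = 0 := fun x => Iff.rfl
  have hBm : ∀ z : (J → ℤ) × P, QuotientAddGroup.mk z ∈ B ↔ z.1 ∈ A := by
    intro z
    rw [hB, hqm]
    exact QuotientAddGroup.eq_zero_iff z.1
  let j : A × P →ₜ+ B :=
    { toFun := fun z => ⟨QuotientAddGroup.mk ((z.1 : J → ℤ), z.2), (hBm _).2 z.1.2⟩
      map_zero' := rfl
      map_add' := fun a b => rfl
      continuous_toFun := ((continuous_quot_mk (r := QuotientAddGroup.leftRel H)).comp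
        ((continuous_subtype_val.comp continuous_fst).prodMk continuous_snd)).subtype_mk _ }
  have hjm : ∀ z : A × P, ((j z : B) : ((J → ℤ) × P) ⧸ H) =
      QuotientAddGroup.mk ((z.1 : J → ℤ), z.2) := fun z => rfl
  have hjz : ∀ z : A × P, j z = 0 ↔ ((z.1 : J → ℤ), z.2) ∈ H := by
    intro z
    rw [← QuotientAddGroup.eq_zero_iff, ← hjm]
    exact Subtype.ext_iff
  have hjs : Function.Surjective j := by
    rintro ⟨x, hx⟩
    obtain ⟨z, rfl⟩ := QuotientAddGroup.mk_surjective x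
    exact ⟨(⟨z.1, (hBm z).1 hx⟩, z.2), rfl⟩
  have hjo : IsOpenMap j := by
    have hemb : IsInducing (fun z : A × P => ((z.1 : J → ℤ), z.2)) :=
      IsInducing.subtypeVal.prodMap IsInducing.id
    intro W hW
    obtain ⟨V, hV, rfl⟩ := hemb.isOpen_iff.1 hW
    have h1 : j '' ((fun z : A × P => ((z.1 : J → ℤ), z.2)) ⁻¹' V) =
        Subtype.val ⁻¹' ((QuotientAddGroup.mk : (J → ℤ) × P → ((J → ℤ) × P) ⧸ H) '' V) := by
      ext b
      constructor
      · rintro ⟨z, hz, rfl⟩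
        exact ⟨_, hz, rfl⟩
      · rintro ⟨z, hz, hzb⟩
        have hzA : z.1 ∈ A := by
          rw [← hBm, hzb]
          exact b.2
        exact ⟨(⟨z.1, hzA⟩, z.2), hz, Subtype.ext hzb⟩
    rw [h1]
    exact (QuotientAddGroup.isOpenMap_coe V hV).preimage continuous_subtype_val
  -- the kernel is reflexive
  have hBr : IsReflexive B := by
    let M : AddSubgroup (A × P) :=
      { carrier := {z | (∃ b : A, z.1 = m • b) ∧ z.2 = 0}
        zero_mem' := ⟨⟨0, (smul_zero m).symm⟩, rfl⟩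
        add_mem' := by
          rintro z w ⟨⟨b, hb⟩, hz⟩ ⟨⟨c, hc⟩, hw⟩
          refine ⟨⟨b + c, ?_⟩, ?_⟩
          · show z.1 + w.1 = _
            rw [hb, hc, smul_add]
          · show z.2 + w.2 = 0
            rw [hz, hw, add_zero]
        neg_mem' := by
          rintro z ⟨⟨b, hb⟩, hz⟩
          refine ⟨⟨-b, ?_⟩, ?_⟩
          · show -z.1 = _
            rw [hb, smul_neg]
          · show -z.2 = 0
            rw [hz, neg_zero] }
    have hM : ∀ z, z ∈ M ↔ (∃ b : A, z.1 = m • b) ∧ z.2 = 0 := fun z => Iff.rfl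
    have hSR := stronglyReflexive_mod_mul h A hA m hm M hM
    let f : (A × P) ⧸ M →ₜ+ B :=
      ⟨QuotientAddGroup.lift M j.toAddMonoidHom (by
        rintro z ⟨⟨b, hb⟩, hz⟩
        show j z = 0
        rw [hjz, hb, hz]
        exact hmA b b.2), continuous_quot_lift _ j.continuous_toFun⟩
    have hfm : ∀ z : A × P, f (QuotientAddGroup.mk z) = j z := fun z => rfl
    have hfs : Function.Surjective f := by
      intro b
      obtain ⟨z, rfl⟩ := hjs b
      exact ⟨QuotientAddGroup.mk z, rfl⟩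
    have hfo : IsOpenMap f := by
      intro W hW
      have h1 : f '' W = j '' ((QuotientAddGroup.mk : A × P → (A × P) ⧸ M) ⁻¹' W) := by
        ext b
        constructor
        · rintro ⟨a, ha, rfl⟩
          obtain ⟨x, rfl⟩ := QuotientAddGroup.mk_surjective a
          exact ⟨x, ha, rfl⟩
        · rintro ⟨x, hx, rfl⟩
          exact ⟨QuotientAddGroup.mk x, hx, rfl⟩
      rw [h1]
      exact hjo _ (hW.preimage continuous_quot_mk)
    let N : AddSubgroup ((A × P) ⧸ M) := f.toAddMonoidHom.ker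
    have hN : ∀ g, g ∈ N ↔ f g = 0 := fun g => Iff.rfl
    have hNc : IsClosed (N : Set ((A × P) ⧸ M)) :=
      (isClosed_singleton (x := (0 : B))).preimage f.continuous_toFun
    exact isReflexive_of_quotient f hfs hfo N hN (hSR N hNc).2
  -- the compact subgroup
  let c : A →+ B := j.toAddMonoidHom.comp (AddMonoidHom.inl A P)
  have hcj : ∀ a : A, c a = j (a, 0) := fun a => rfl
  have hcc : Continuous c := j.continuous_toFun.comp (continuous_id.prodMk continuous_const)
  have hcm : ∀ b : A, c (m • b) = 0 := by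
    intro b
    rw [hcj, hjz]
    exact hmA b b.2
  have hCc : IsCompact (c.range : Set B) := by
    obtain ⟨K, hK, hKA, hKm⟩ := exists_compact_add_mul A hA m hm
    have hK' : IsCompact (Subtype.val ⁻¹' K : Set A) :=
      hA.isClosedEmbedding_subtypeVal.isCompact_preimage hK
    have h1 : (c.range : Set B) = c '' (Subtype.val ⁻¹' K : Set A) := by
      ext x
      constructor
      · rintro ⟨a, rfl⟩
        obtain ⟨k, hk, b, hb, hkb⟩ := hKm a a.2
        refine ⟨⟨k, hKA hk⟩, hk, ?_⟩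
        have h2 : a = (⟨k, hKA hk⟩ : A) + m • (⟨b, hb⟩ : A) := Subtype.ext hkb
        rw [h2, map_add, hcm, add_zero]
      · rintro ⟨a, -, rfl⟩
        exact ⟨a, rfl⟩
    rw [h1]
    exact hK'.image hcc
  -- the retraction
  let i₂ : P →ₜ+ A × P := ⟨AddMonoidHom.inr A P, continuous_const.prodMk continuous_id⟩
  let s : (J → ℤ) × P →ₜ+ B ⧸ c.range :=
    ((SubQAux.mkHom c.range).comp (j.comp i₂)).comp (ContinuousAddMonoidHom.snd (J → ℤ) P)
  have hs : ∀ z : (J → ℤ) × P, s z = QuotientAddGroup.mk (j (0, z.2)) := fun z => rfl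
  have hsj : ∀ z : A × P, (QuotientAddGroup.mk (j (0, z.2)) : B ⧸ c.range) =
      QuotientAddGroup.mk (j z) := by
    intro z
    rw [QuotientAddGroup.eq]
    refine ⟨z.1, ?_⟩
    rw [hcj]
    have h1 : z = (0, z.2) + (z.1, 0) := by
      rw [Prod.mk_add_mk, zero_add, add_zero]
    have h2 : j z = j (0, z.2) + j (z.1, 0) := by
      rw [← map_add, ← h1]
    rw [h2, neg_add_cancel_left]
  let r : ((J → ℤ) × P) ⧸ H →ₜ+ B ⧸ c.range :=
    ⟨QuotientAddGroup.lift H s.toAddMonoidHom (by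
      intro z hz
      show s z = 0
      have h1 := hsj (⟨z.1, hHA z hz⟩, z.2)
      rw [hs]
      refine h1.trans ?_
      rw [(hjz (⟨z.1, hHA z hz⟩, z.2)).2 hz]
      rfl), continuous_quot_lift _ s.continuous_toFun⟩
  have hr : ∀ b : B, r (b : ((J → ℤ) × P) ⧸ H) = QuotientAddGroup.mk b := by
    intro b
    obtain ⟨z, rfl⟩ := hjs b
    exact hsj z
  exact eta_surjective_of_retract q hqs hqo hYr.bijective.surjective B hB
    hBr.bijective.surjective c.range hCc r hr

end Pool.Agent.Work.MP_c629c8_al
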