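import Mathlib
import Pool.Agent.Work.MP_c629c8_al.Bdd.IntRefl
import Pool.Agent.Work.MP_c629c8_al.Bdd.QuotCont
import Pool.Agent.Work.MP_c629c8_al.Bdd.QuotSurj

/-!
# Hausdorff quotients of `ℤ^J × P`, `P` of finite exponent, are reflexive
-/

universe u v

namespace Pool.Agent.Work.MP_c629c8_al

open Topology

/-- Hausdorff quotients of the product of a countable power of `ℤ` and a strongly reflexive
nonarchimedean group of finite exponent are reflexive -/
theorem isReflexive_quotient_int_of_bounded {J : Type u} [Countable J] {P : Type v}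
    [AddCommGroup P] [TopologicalSpace P] [NonarchimedeanAddGroup P] [T2Space P]
    (h : StronglyReflexive P) {m : ℕ} (hm : m ≠ 0) (hP : ∀ y : P, m • y = 0)
    (H : AddSubgroup ((J → ℤ) × P)) (hH : IsClosed (H : Set ((J → ℤ) × P))) :
    IsReflexive (((J → ℤ) × P) ⧸ H) := by
  have hT : T2Space (((J → ℤ) × P) ⧸ H) := by
    have : IsClosed (H : Set ((J → ℤ) × P)) := hH
    infer_instance
  have hs : Function.Surjective (eta (((J → ℤ) × P) ⧸ H)) :=
    eta_surjective_quotient_int h hm hP H hH
  exact ⟨eta_continuous_quotient (isReflexive_int_prod h) H, eta_isOpenMap hs, eta_injective, hs⟩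

end Pool.Agent.Work.MP_c629c8_al
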