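import Mathlib
import Pool.Agent.Work.MP_c629c8_al.PiGood
import Pool.Agent.Work.MP_c629c8_al.Vec.ThmK
import Pool.Agent.Work.MP_c629c8_al.Bdd.IntCl
import Pool.Agent.Work.MP_c629c8_al.Bdd.CompExt

/-!
# Closed subgroups of `ℤ^J × P`, `P` of finite exponent, are reflexive
-/

universe u v w

namespace Pool.Agent.Work.MP_c629c8_al

open Topology

namespace BddSub

section lift

variable {Y : Type u} {Z : Type v} [AddCommGroup Y] [TopologicalSpace Y] [IsTopologicalAddGroup Y]
  [AddCommGroup Z] [TopologicalSpace Z] [IsTopologicalAddGroup Z]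

omit [IsTopologicalAddGroup Y] [IsTopologicalAddGroup Z] in
/-- the dual of a homomorphism is an embedding if compact sets lift -/
lemma isInducing_dualMap_of_lift (p : Y →ₜ+ Z)
    (hl : ∀ C : Set Z, IsCompact C → ∃ D : Set Y, IsCompact D ∧ C ⊆ p '' D) :
    IsInducing (dualMap p) := by
  rw [IsTopologicalAddGroup.isInducing_iff_nhds_zero]
  refine le_antisymm ?_ ?_
  · rw [← Filter.tendsto_iff_comap]
    have := (dualMap p).continuous_toFun.tendsto 0
    have h0 : (dualMap p).toFun 0 = 0 := map_zero (dualMap p)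
    rwa [h0] at this
  · intro W hW
    obtain ⟨K, hK', δ, hδ, h⟩ := SurjAux.exists_of_mem_nhds hW
    obtain ⟨D, hD, hKD⟩ := hl K hK'
    rw [Filter.mem_comap]
    refine ⟨_, SurjAux.mem_nhds hD hδ, ?_⟩
    intro ζ hζ
    refine h ζ fun z hz => ?_
    obtain ⟨y, hy, rfl⟩ := hKD hz
    exact hζ y hy

omit [IsTopologicalAddGroup Y] [IsTopologicalAddGroup Z] in
/-- equicontinuity of a compact set of characters that factor over a quotient -/
lemma equi_of_quotient (p : Y →ₜ+ Z) (hp : Function.Surjective p) (hpo : IsOpenMap p)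
    (hl : ∀ C : Set Z, IsCompact C → ∃ D : Set Y, IsCompact D ∧ C ⊆ p '' D)
    (hZ : Continuous (eta Z)) {E : Set (Dual Y)} (hE : IsCompact E)
    (hker : ∀ χ ∈ E, ∀ y, p y = 0 → χ y = 0) {U : Set UnitAddCircle} (hU : IsOpen U)
    (h0 : (0 : UnitAddCircle) ∈ U) : ∀ᶠ y in 𝓝 (0 : Y), ∀ χ ∈ E, χ y ∈ U := by
  have h3 : IsCompact (dualMap p ⁻¹' E) := by
    rw [(isInducing_dualMap_of_lift p hl).isCompact_preimage_iff]
    · exact hE
    · exact fun ξ hξ => LemC.exists_dual hp hpo ξ (hker ξ hξ)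
  have h4 := equi_of_eta_continuous hZ h3 hU h0
  have h5 : Filter.Tendsto p (𝓝 0) (𝓝 0) := by
    have := p.continuous_toFun.tendsto 0
    have h6 : p.toFun 0 = 0 := map_zero p
    rwa [h6] at this
  filter_upwards [h5.eventually h4] with x hx χ hχ
  obtain ⟨ζ, hζ⟩ := LemC.exists_dual hp hpo χ (hker χ hχ)
  rw [← hζ, dualMap_apply]
  refine hx ζ ?_
  rw [Set.mem_preimage, hζ]
  exact hχ

omit [IsTopologicalAddGroup Y] [IsTopologicalAddGroup Z] in
/-- characters of characters of a product -/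
lemma eta_surjective_prod (hY : Function.Surjective (eta Y)) (hZ : Function.Surjective (eta Z)) :
    Function.Surjective (eta (Y × Z)) := by
  intro Ψ
  let inl : Y →ₜ+ Y × Z :=
    { toFun := fun y => (y, 0)
      map_zero' := rfl
      map_add' := fun x y => by rw [Prod.mk_add_mk, add_zero]
      continuous_toFun := continuous_id.prodMk continuous_const }
  let inr : Z →ₜ+ Y × Z :=
    { toFun := fun z => (0, z)
      map_zero' := rfl
      map_add' := fun x y => by rw [Prod.mk_add_mk, add_zero]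
      continuous_toFun := continuous_const.prodMk continuous_id }
  let fst : Y × Z →ₜ+ Y :=
    { toFun := fun z => z.1
      map_zero' := rfl
      map_add' := fun _ _ => rfl
      continuous_toFun := continuous_fst }
  let snd : Y × Z →ₜ+ Z :=
    { toFun := fun z => z.2
      map_zero' := rfl
      map_add' := fun _ _ => rfl
      continuous_toFun := continuous_snd }
  obtain ⟨y, hy⟩ := hY (dualMap (dualMap fst) Ψ)
  obtain ⟨z, hz⟩ := hZ (dualMap (dualMap snd) Ψ)
  refine ⟨(y, z), ContinuousAddMonoidHom.ext fun χ => ?_⟩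
  have h1 : χ = dualMap fst (dualMap inl χ) + dualMap snd (dualMap inr χ) := by
    refine ContinuousAddMonoidHom.ext fun w => ?_
    show χ w = χ (w.1, 0) + χ (0, w.2)
    rw [← map_add, Prod.mk_add_mk, add_zero, zero_add]
  have h2 : Ψ (dualMap fst (dualMap inl χ)) = χ (y, 0) :=
    (DFunLike.congr_fun hy (dualMap inl χ)).symm
  have h3 : Ψ (dualMap snd (dualMap inr χ)) = χ (0, z) :=
    (DFunLike.congr_fun hz (dualMap inr χ)).symm
  have h4 : Ψ χ = χ (y, 0) + χ (0, z) := by
    rw [← h2, ← h3, ← map_add, ← h1]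
  rw [h4, ← map_add, Prod.mk_add_mk, add_zero, zero_add]
  rfl

end lift

section sub

variable {E : Type u} [AddCommGroup E] [TopologicalSpace E] [NonarchimedeanAddGroup E]

/-- the evaluation map of a closed subgroup is surjective -/
lemma eta_surjective_subgroup (hE : Function.Surjective (eta E)) (H : AddSubgroup E)
    (hH : IsClosed (H : Set E)) : Function.Surjective (eta H) := by
  intro Ψ
  let ι : H →ₜ+ E := ⟨H.subtype, continuous_subtype_val⟩
  obtain ⟨e, he⟩ := hE (dualMap (dualMap ι) Ψ)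
  have he' : ∀ χ : Dual E, χ e = Ψ (dualMap ι χ) := fun χ => DFunLike.congr_fun he χ
  have heH : e ∈ H := by
    by_contra hcon
    have hT : T2Space (E ⧸ H) := by
      have : IsClosed (H : Set E) := hH
      infer_instance
    have h1 : (QuotientAddGroup.mk e : E ⧸ H) ≠ 0 := by
      rwa [Ne, QuotientAddGroup.eq_zero_iff]
    obtain ⟨N, hN⟩ := exists_open_not_mem h1
    obtain ⟨χ, -, hχ⟩ := exists_dual_ne_zero N hN
    let q : E →ₜ+ E ⧸ H := ⟨QuotientAddGroup.mk' H, continuous_quot_mk⟩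
    apply hχ
    have h2 : dualMap ι (dualMap q χ) = 0 := by
      refine ContinuousAddMonoidHom.ext fun h => ?_
      show χ (QuotientAddGroup.mk (h : E)) = 0
      rw [(QuotientAddGroup.eq_zero_iff (h : E)).2 h.2, map_zero]
    have h3 := he' (dualMap q χ)
    rw [h2, map_zero] at h3
    exact h3
  refine ⟨⟨e, heH⟩, ContinuousAddMonoidHom.ext fun ξ => ?_⟩
  obtain ⟨χ, hχ⟩ := exists_extension_nonarch H ξ
  have h1 : dualMap ι χ = ξ := ContinuousAddMonoidHom.ext fun h => hχ h
  have h2 := he' χ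
  rw [h1] at h2
  show ξ ⟨e, heH⟩ = Ψ ξ
  rw [← h2, ← hχ ⟨e, heH⟩]

end sub

section main

variable {J : Type u} {P : Type v} [AddCommGroup P] [TopologicalSpace P]
  [NonarchimedeanAddGroup P]

/-- the closure of the projection -/
def clFst (H : AddSubgroup ((J → ℤ) × P)) : AddSubgroup (J → ℤ) :=
  (H.map (AddMonoidHom.fst (J → ℤ) P)).topologicalClosure

omit [TopologicalSpace P] [NonarchimedeanAddGroup P] in
lemma fst_mem_clFst {H : AddSubgroup ((J → ℤ) × P)} {z : (J → ℤ) × P} (hz : z ∈ H) :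
    z.1 ∈ clFst H :=
  AddSubgroup.le_topologicalClosure _ ⟨z, hz, rfl⟩

omit [NonarchimedeanAddGroup P] in
lemma nsmul_mem_of_clFst {m : ℕ} (hP : ∀ y : P, m • y = 0) {H : AddSubgroup ((J → ℤ) × P)}
    (hH : IsClosed (H : Set ((J → ℤ) × P))) {a : J → ℤ} (ha : a ∈ clFst H) :
    ((m • a, 0) : (J → ℤ) × P) ∈ H := by
  have h1 : Continuous fun a : J → ℤ => ((m • a, 0) : (J → ℤ) × P) :=
    (continuous_id.const_smul m).prodMk continuous_const
  have h2 : IsClosed {a : J → ℤ | ((m • a, 0) : (J → ℤ) × P) ∈ H} := hH.preimage h1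
  have h3 : ((H.map (AddMonoidHom.fst (J → ℤ) P) : AddSubgroup (J → ℤ)) : Set (J → ℤ)) ⊆
      {a : J → ℤ | ((m • a, 0) : (J → ℤ) × P) ∈ H} := by
    rintro _ ⟨z, hz, rfl⟩
    have h4 := H.nsmul_mem hz m
    have h5 : m • z = (m • z.1, 0) := Prod.ext rfl (hP z.2)
    rw [h5] at h4
    exact h4
  exact closure_minimal h3 h2 ha

/-- the functions that vanish on a finite set -/
def vanOn (F : Finset J) : AddSubgroup (J → ℤ) where
  carrier := {a | ∀ j ∈ F, a j = 0}
  zero_mem' := fun _ _ => rfl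
  add_mem' := fun {a b} ha hb j hj => by
    show a j + b j = 0
    rw [ha j hj, hb j hj, add_zero]
  neg_mem' := fun {a} ha j hj => by
    show -(a j) = 0
    rw [ha j hj, neg_zero]

lemma isOpen_vanOn (F : Finset J) : IsOpen (vanOn F : Set (J → ℤ)) := by
  have : (vanOn F : Set (J → ℤ)) = (F : Set J).pi fun _ => ({0} : Set ℤ) := by
    ext x
    simp [vanOn, Set.mem_pi]
  rw [this]
  exact isOpen_set_pi F.finite_toSet fun i _ => isOpen_discrete _

lemma exists_vanOn {W : Set (J → ℤ)} (hW : W ∈ 𝓝 (0 : J → ℤ)) :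
    ∃ F : Finset J, (vanOn F : Set (J → ℤ)) ⊆ W := by
  rw [nhds_pi, Filter.mem_pi] at hW
  obtain ⟨F, hF, t, ht, hsub⟩ := hW
  refine ⟨hF.toFinset, fun a ha => hsub fun i hi => ?_⟩
  have h1 : a i = 0 := ha i (by simpa using hi)
  rw [h1]
  exact mem_of_mem_nhds (ht i)

omit [NonarchimedeanAddGroup P] in
/-- the first equicontinuity step -/
lemma exists_finset_vanish [Countable J] {m : ℕ} (hP : ∀ y : P, m • y = 0)
    {H : AddSubgroup ((J → ℤ) × P)} (hH : IsClosed (H : Set ((J → ℤ) × P)))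
    {E : Set (Dual H)} (hE : IsCompact E) : ∃ F : Finset J, ∀ χ ∈ E, ∀ h : H,
      (h : (J → ℤ) × P).2 = 0 → (∃ a ∈ clFst H ⊓ vanOn F, (h : (J → ℤ) × P).1 = m • a) →
      χ h = 0 := by
  let ι : clFst H →ₜ+ H :=
    { toFun := fun a => ⟨(m • (a : J → ℤ), 0), nsmul_mem_of_clFst hP hH a.2⟩
      map_zero' := by
        refine Subtype.ext (Prod.ext ?_ rfl)
        show m • (0 : J → ℤ) = 0
        rw [smul_zero]
      map_add' := fun a b => by
        refine Subtype.ext (Prod.ext ?_ ?_)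
        · show m • ((a : J → ℤ) + b) = m • (a : J → ℤ) + m • (b : J → ℤ)
          rw [smul_add]
        · show (0 : P) = 0 + 0
          rw [add_zero]
      continuous_toFun := by
        refine Continuous.subtype_mk ?_ _
        exact (continuous_subtype_val.const_smul m).prodMk continuous_const }
  have hfc : FirstCountableTopology (clFst H) :=
    inferInstanceAs (FirstCountableTopology (clFst H : Set (J → ℤ)))
  have h1 := equi_of_firstCountable (hE.image (dualMap ι).continuous_toFun)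
    (Metric.isOpen_ball (x := (0 : UnitAddCircle)) (ε := 1 / 4))
    (Metric.mem_ball_self (by norm_num))
  rw [nhds_subtype, Filter.eventually_comap] at h1
  obtain ⟨F, hF⟩ := exists_vanOn h1
  refine ⟨F, fun χ hχ h h2 h3 => ?_⟩
  obtain ⟨a, ha, hha⟩ := h3
  have h4 : h = ι ⟨a, ha.1⟩ := Subtype.ext (Prod.ext hha h2)
  rw [h4]
  refine eq_zero_of_small fun j => ?_
  have h5 : j • a ∈ vanOn F := (vanOn F).nsmul_mem ha.2 j
  have h6 := hF h5 (j • ⟨a, ha.1⟩) rfl (dualMap ι χ) ⟨χ, hχ, rfl⟩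
  rw [mem_ball_zero_iff, map_nsmul] at h6
  exact h6

end main

end BddSub

open BddSub in
/-- closed subgroups of the product of a countable power of `ℤ` and a strongly reflexive
nonarchimedean group of finite exponent are reflexive -/
theorem isReflexive_subgroup_int_of_bounded {J : Type u} [Countable J] {P : Type v}
    [AddCommGroup P] [TopologicalSpace P] [NonarchimedeanAddGroup P] [T2Space P]
    (h : StronglyReflexive P) {m : ℕ} (hm : m ≠ 0) (hP : ∀ y : P, m • y = 0)
    (H : AddSubgroup ((J → ℤ) × P)) (hH : IsClosed (H : Set ((J → ℤ) × P))) :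
    IsReflexive H := by
  have hPr : IsReflexive P := by
    let f : (⊤ : AddSubgroup P) →ₜ+ P := ⟨(⊤ : AddSubgroup P).subtype, continuous_subtype_val⟩
    let g : P →ₜ+ (⊤ : AddSubgroup P) :=
      { toFun := fun y => ⟨y, AddSubgroup.mem_top y⟩
        map_zero' := rfl
        map_add' := fun _ _ => rfl
        continuous_toFun := continuous_id.subtype_mk _ }
    exact IsReflexive.of_iso f g (fun _ => rfl) (fun _ => rfl) (h ⊤ isClosed_univ).1
  have hZ : Function.Surjective (eta (J → ℤ)) := eta_surjective linComplete_of_complete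
  have hs : Function.Surjective (eta H) :=
    eta_surjective_subgroup (eta_surjective_prod hZ hPr.bijective.2) H hH
  refine ⟨?_, eta_isOpenMap hs, eta_injective, hs⟩
  refine eta_continuous fun E hE U hU h0 => ?_
  obtain ⟨F, hF⟩ := exists_finset_vanish hP hH hE
  -- the subgroup
  let A : AddSubgroup (J → ℤ) := clFst H ⊓ vanOn F
  have hA : IsClosed (A : Set (J → ℤ)) := by
    have h1 : IsClosed (clFst H : Set (J → ℤ)) := isClosed_closure
    have h2 : IsClosed (vanOn F : Set (J → ℤ)) := (vanOn F).isClosed_of_isOpen (isOpen_vanOn F)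
    exact h1.inter h2
  let M : AddSubgroup (A × P) :=
    { carrier := {z | (∃ b : A, z.1 = m • b) ∧ z.2 = 0}
      zero_mem' := ⟨⟨0, (smul_zero m).symm⟩, rfl⟩
      add_mem' := by
        rintro x y ⟨⟨b, hb⟩, hx⟩ ⟨⟨c, hc⟩, hy⟩
        refine ⟨⟨b + c, ?_⟩, ?_⟩
        · rw [smul_add, ← hb, ← hc]
          rfl
        · show x.2 + y.2 = 0
          rw [hx, hy, add_zero]
      neg_mem' := by
        rintro x ⟨⟨b, hb⟩, hx⟩
        refine ⟨⟨-b, ?_⟩, ?_⟩
        · rw [smul_neg, ← hb]
          rfl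
        · show -x.2 = 0
          rw [hx, neg_zero] }
  have hM : ∀ z, z ∈ M ↔ (∃ b : A, z.1 = m • b) ∧ z.2 = 0 := fun z => Iff.rfl
  have hQ0 : StronglyReflexive ((A × P) ⧸ M) := stronglyReflexive_mod_mul h A hA m hm M hM
  let H' : AddSubgroup (A × P) := H.comap (A.subtype.prodMap (AddMonoidHom.id P))
  have hmemH' : ∀ z : A × P, z ∈ H' ↔ (((z.1 : J → ℤ), z.2) : (J → ℤ) × P) ∈ H :=
    fun z => Iff.rfl
  have hcont : Continuous fun z : A × P => (((z.1 : J → ℤ), z.2) : (J → ℤ) × P) :=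
    (continuous_subtype_val.comp continuous_fst).prodMk continuous_snd
  have hH' : IsClosed (H' : Set (A × P)) := hH.preimage hcont
  have hMH : ∀ z ∈ M, z ∈ H' := by
    rintro z ⟨⟨b, hb⟩, hz⟩
    rw [hmemH', hb, hz]
    exact nsmul_mem_of_clFst hP hH b.2.1
  let Hq : AddSubgroup ((A × P) ⧸ M) := H'.map (QuotientAddGroup.mk' M)
  have hpre : ∀ z : A × P, (QuotientAddGroup.mk z : (A × P) ⧸ M) ∈ Hq ↔ z ∈ H' := by
    intro z
    constructor
    · rintro ⟨w, hw, hwz⟩
      have h1 : (QuotientAddGroup.mk w : (A × P) ⧸ M) = QuotientAddGroup.mk z := hwz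
      rw [QuotientAddGroup.eq] at h1
      have h2 := H'.add_mem hw (hMH _ h1)
      rwa [add_neg_cancel_left] at h2
    · intro hz
      exact ⟨z, hz, rfl⟩
  have hHq : IsClosed (Hq : Set ((A × P) ⧸ M)) := by
    rw [← (QuotientAddGroup.isQuotientMap_mk (N := M)).isClosed_preimage]
    have h1 : (QuotientAddGroup.mk : A × P → (A × P) ⧸ M) ⁻¹' (Hq : Set ((A × P) ⧸ M)) =
        (H' : Set (A × P)) := by
      ext z
      exact hpre z
    rw [h1]
    exact hH'
  have hr : IsReflexive Hq := (hQ0 Hq hHq).1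
  let p : H' →ₜ+ Hq :=
    { toFun := fun z => ⟨QuotientAddGroup.mk (z : A × P), (hpre z).2 z.2⟩
      map_zero' := rfl
      map_add' := fun _ _ => rfl
      continuous_toFun := by
        refine Continuous.subtype_mk ?_ _
        exact (continuous_quot_mk (r := QuotientAddGroup.leftRel M)).comp continuous_subtype_val }
  have hp : Function.Surjective p := by
    rintro ⟨q, hq⟩
    obtain ⟨z, rfl⟩ := QuotientAddGroup.mk_surjective q
    exact ⟨⟨z, (hpre z).1 hq⟩, rfl⟩
  have hpo : IsOpenMap p := by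
    intro W hW
    obtain ⟨V, hV, rfl⟩ := isOpen_induced_iff.1 hW
    have h3 : p '' (Subtype.val ⁻¹' V) = Subtype.val ⁻¹' (QuotientAddGroup.mk '' V) := by
      ext q
      constructor
      · rintro ⟨z, hz, rfl⟩
        exact ⟨z, hz, rfl⟩
      · rintro ⟨z, hz, hzq⟩
        have h4 : z ∈ H' := by
          rw [← hpre, hzq]
          exact q.2
        exact ⟨⟨z, h4⟩, hz, Subtype.ext hzq⟩
    rw [h3]
    exact (QuotientAddGroup.isOpenMap_coe (N := M) V hV).preimage continuous_subtype_val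
  -- compact sets lift
  have hl : ∀ C : Set Hq, IsCompact C → ∃ D : Set H', IsCompact D ∧ C ⊆ p '' D := by
    intro C hC
    obtain ⟨K, hK, hKA, hKm⟩ := exists_compact_add_mul A hA m hm
    let s : (A × P) ⧸ M →+ P := QuotientAddGroup.lift M (AddMonoidHom.snd A P)
      (fun z hz => hz.2)
    have hsc : Continuous s := continuous_quot_lift _ continuous_snd
    let CP : Set P := (fun q : Hq => s q) '' C
    have hCP : IsCompact CP := hC.image (hsc.comp continuous_subtype_val)
    have hK' : IsCompact ((Subtype.val : A → J → ℤ) ⁻¹' K) :=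
      hA.isClosedEmbedding_subtypeVal.isCompact_preimage hK
    refine ⟨(Subtype.val : H' → A × P) ⁻¹' (((Subtype.val : A → J → ℤ) ⁻¹' K) ×ˢ CP),
      hH'.isClosedEmbedding_subtypeVal.isCompact_preimage (hK'.prod hCP), ?_⟩
    intro c hc
    obtain ⟨⟨z, hz⟩, rfl⟩ := hp c
    obtain ⟨k, hk, b, hb, hab⟩ := hKm z.1 z.1.2
    have hkA : k ∈ A := hKA hk
    let w : A × P := (⟨k, hkA⟩, z.2)
    have hzw : z - w ∈ M := by
      refine ⟨⟨⟨b, hb⟩, Subtype.ext ?_⟩, ?_⟩
      · show (z.1 : J → ℤ) - k = m • b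
        rw [hab, add_sub_cancel_left]
      · show z.2 - z.2 = 0
        rw [sub_self]
    have hw : w ∈ H' := by
      have h1 := H'.sub_mem hz (hMH _ hzw)
      rwa [sub_sub_cancel] at h1
    refine ⟨⟨w, hw⟩, ⟨hk, ⟨_, hc, rfl⟩⟩, Subtype.ext ?_⟩
    show (QuotientAddGroup.mk w : (A × P) ⧸ M) = QuotientAddGroup.mk z
    rw [QuotientAddGroup.eq, neg_add_eq_sub]
    exact hzw
  -- the characters
  let j : H' →ₜ+ H :=
    { toFun := fun z => ⟨((z.1.1 : J → ℤ), z.1.2), z.2⟩
      map_zero' := rfl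
      map_add' := fun _ _ => rfl
      continuous_toFun := (hcont.comp continuous_subtype_val).subtype_mk _ }
  have hker : ∀ χ ∈ dualMap j '' E, ∀ z, p z = 0 → χ z = 0 := by
    rintro _ ⟨χ, hχ, rfl⟩ z hz
    have h1 : (z : A × P) ∈ M := by
      rw [← QuotientAddGroup.eq_zero_iff]
      exact congrArg Subtype.val hz
    obtain ⟨⟨b, hb⟩, hz2⟩ := h1
    refine hF χ hχ (j z) hz2 ⟨b, b.2, ?_⟩
    show ((z : A × P).1 : J → ℤ) = m • (b : J → ℤ)
    rw [hb]
    rfl
  have h4 := equi_of_quotient p hp hpo hl hr.continuous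
    (hE.image (dualMap j).continuous_toFun) hker hU h0
  -- back to the group
  have hj : IsInducing j := by
    have h1 : IsInducing (fun z : H' => (((z.1.1 : J → ℤ), z.1.2) : (J → ℤ) × P)) :=
      (IsInducing.subtypeVal.prodMap IsInducing.id).comp IsInducing.subtypeVal
    exact IsInducing.of_comp j.continuous_toFun continuous_subtype_val h1
  have hrange : Set.range j ∈ 𝓝 (j 0) := by
    have h1 : IsOpen {z : H | (z : (J → ℤ) × P).1 ∈ vanOn F} :=
      (isOpen_vanOn F).preimage (continuous_fst.comp continuous_subtype_val)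
    refine Filter.mem_of_superset (h1.mem_nhds ?_) ?_
    · exact (vanOn F).zero_mem
    · intro z hz
      exact ⟨⟨(⟨(z : (J → ℤ) × P).1, fst_mem_clFst z.2, hz⟩, (z : (J → ℤ) × P).2), z.2⟩, rfl⟩
  have hmap := hj.map_nhds_of_mem 0 hrange
  have hj0 : j 0 = 0 := map_zero j
  rw [hj0] at hmap
  rw [← hmap, Filter.eventually_map]
  filter_upwards [h4] with z hz χ hχ
  exact hz (dualMap j χ) ⟨χ, hχ, rfl⟩

end Pool.Agent.Work.MP_c629c8_al
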