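import Mathlib
import Pool.Agent.Work.MP_c629c8_al.Bdd.Quot
import Pool.Agent.Work.MP_c629c8_al.Bdd.Sub
import Pool.Agent.Work.MP_c629c8_al.Vec.GraphSR
import Pool.Agent.Work.MP_c629c8_al.Vec.SubQ

/-!
# Groups with an open subgroup of finite exponent
-/

universe u v w

namespace Pool.Agent.Work.MP_c629c8_al

open Topology

section openinj

variable {A : Type u} {G : Type v} [AddCommGroup A] [TopologicalSpace A] [IsTopologicalAddGroup A]
  [AddCommGroup G] [TopologicalSpace G] [IsTopologicalAddGroup G]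

/-- strong reflexivity passes from an open subgroup to the group -/
theorem stronglyReflexive_of_open_injective (f : A →ₜ+ G) (hf : IsOpenMap f)
    (hi : Function.Injective f) (h : StronglyReflexive A) : StronglyReflexive G := by
  intro H hH
  let M : AddSubgroup A := H.comap f.toAddMonoidHom
  have hM : IsClosed (M : Set A) := hH.preimage f.continuous_toFun
  obtain ⟨h1, h2⟩ := h M hM
  constructor
  · let g : M →ₜ+ H :=
      { toFun := fun m => ⟨f m, m.2⟩
        map_zero' := Subtype.ext (map_zero f)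
        map_add' := fun a b => Subtype.ext (map_add f (a : A) (b : A))
        continuous_toFun := (f.continuous_toFun.comp continuous_subtype_val).subtype_mk _ }
    refine isReflexive_of_open_injective g ?_ ?_ h1
    · intro W hW
      obtain ⟨V, hV, rfl⟩ := isOpen_induced_iff.1 hW
      have h3 : g '' (Subtype.val ⁻¹' V) = Subtype.val ⁻¹' (f '' V) := by
        ext z
        constructor
        · rintro ⟨m, hm, rfl⟩
          exact ⟨m, hm, rfl⟩
        · rintro ⟨a, ha, haz⟩
          have haM : a ∈ M := by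
            show f a ∈ H
            rw [haz]
            exact z.2
          exact ⟨⟨a, haM⟩, ha, Subtype.ext haz⟩
      rw [h3]
      exact (hf V hV).preimage continuous_subtype_val
    · intro a b hab
      exact Subtype.ext (hi (congrArg Subtype.val hab))
  · let q : A →ₜ+ G ⧸ H :=
      { toAddMonoidHom := (QuotientAddGroup.mk' H).comp f.toAddMonoidHom
        continuous_toFun := (continuous_quot_mk (r := QuotientAddGroup.leftRel H)).comp
          f.continuous_toFun }
    refine isReflexive_of_open_hom q ?_ M (fun a => ?_) h2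
    · exact (QuotientAddGroup.isOpenMap_coe (N := H)).comp hf
    · exact (QuotientAddGroup.eq_zero_iff (N := H) (f a)).symm

end openinj

theorem stronglyReflexive_of_open_subgroup {G : Type u} [AddCommGroup G] [TopologicalSpace G]
    [IsTopologicalAddGroup G] (U : AddSubgroup G) (hU : IsOpen (U : Set G))
    (h : StronglyReflexive U) : StronglyReflexive G :=
  stronglyReflexive_of_open_injective (⟨U.subtype, continuous_subtype_val⟩ : U →ₜ+ G)
    hU.isOpenMap_subtype_val Subtype.val_injective h

/-- the product of a countable power of the integers and a group of finite exponent -/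
theorem stronglyReflexive_int_of_bounded {J : Type u} [Countable J] {P : Type v}
    [AddCommGroup P] [TopologicalSpace P] [NonarchimedeanAddGroup P] [T2Space P]
    (h : StronglyReflexive P) {m : ℕ} (hm : m ≠ 0) (hP : ∀ y : P, m • y = 0) :
    StronglyReflexive ((J → ℤ) × P) := fun H hH =>
  ⟨isReflexive_subgroup_int_of_bounded h hm hP H hH,
    isReflexive_quotient_int_of_bounded h hm hP H hH⟩

section graph

variable {κ : Type u} {P : Type v} [AddCommGroup P] [TopologicalSpace P]

/-- the vectors `n`, divided by `m`, and points of `U` that belong to `graphB ψ` -/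
def divGraph (ψ : κ → Dual P) (U : AddSubgroup P) (m : ℕ) : AddSubgroup ((κ → ℤ) × U) where
  carrier := {z | ∀ j, ψ j z.2 = (((z.1 j : ℝ) / m : ℝ) : UnitAddCircle)}
  zero_mem' := fun j => by
    show ψ j 0 = ((((0 : ℤ) : ℝ) / m : ℝ) : UnitAddCircle)
    rw [map_zero, Int.cast_zero, zero_div]
    rfl
  add_mem' := fun {a b} ha hb j => by
    show ψ j ((a.2 : P) + b.2) = ((((a.1 j + b.1 j : ℤ) : ℝ) / m : ℝ) : UnitAddCircle)
    rw [map_add, ha j, hb j, Int.cast_add, add_div, AddCircle.coe_add]
  neg_mem' := fun {a} ha j => by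
    show ψ j (-(a.2 : P)) = ((((-a.1 j : ℤ) : ℝ) / m : ℝ) : UnitAddCircle)
    rw [map_neg, ha j, Int.cast_neg, neg_div, AddCircle.coe_neg]

theorem isClosed_divGraph (ψ : κ → Dual P) (U : AddSubgroup P) (m : ℕ) :
    IsClosed (divGraph ψ U m : Set ((κ → ℤ) × U)) := by
  have h : (divGraph ψ U m : Set ((κ → ℤ) × U)) =
      ⋂ j, {z | ψ j z.2 = (((z.1 j : ℝ) / m : ℝ) : UnitAddCircle)} := by
    ext z
    rw [Set.mem_iInter]
    exact Iff.rfl
  rw [h]
  refine isClosed_iInter fun j => isClosed_eq ?_ ?_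
  · exact (ψ j).continuous_toFun.comp (continuous_subtype_val.comp continuous_snd)
  · refine toCircle.continuous_toFun.comp ?_
    have h1 : Continuous fun n : ℤ => (n : ℝ) / m := continuous_of_discreteTopology
    exact h1.comp ((continuous_apply j).comp continuous_fst)

/-- the inclusion of the subgroup above in `graphB ψ` -/
noncomputable def divMap (ψ : κ → Dual P) (U : AddSubgroup P) (m : ℕ) :
    divGraph ψ U m →ₜ+ graphB ψ where
  toFun z := ⟨(fun j => (z.1.1 j : ℝ) / m, z.1.2), fun j => z.2 j⟩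
  map_zero' := by
    refine Subtype.ext (Prod.ext (funext fun j => ?_) rfl)
    show (((0 : ℤ) : ℝ) / m : ℝ) = 0
    rw [Int.cast_zero, zero_div]
  map_add' a b := by
    refine Subtype.ext (Prod.ext (funext fun j => ?_) rfl)
    show (((a.1.1 j + b.1.1 j : ℤ) : ℝ) / m : ℝ) = (a.1.1 j : ℝ) / m + (b.1.1 j : ℝ) / m
    rw [Int.cast_add, add_div]
  continuous_toFun := by
    refine Continuous.subtype_mk (Continuous.prodMk (continuous_pi fun j => ?_) ?_) _
    · have h1 : Continuous fun n : ℤ => (n : ℝ) / m := continuous_of_discreteTopology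
      exact h1.comp ((continuous_apply j).comp (continuous_fst.comp continuous_subtype_val))
    · exact continuous_subtype_val.comp (continuous_snd.comp continuous_subtype_val)

lemma divMap_injective (ψ : κ → Dual P) (U : AddSubgroup P) {m : ℕ} (hm : m ≠ 0) :
    Function.Injective (divMap ψ U m) := by
  intro a b hab
  have h0 : (m : ℝ) ≠ 0 := Nat.cast_ne_zero.2 hm
  have h1 : ((divMap ψ U m a : graphB ψ) : (κ → ℝ) × P) = divMap ψ U m b := congrArg _ hab
  refine Subtype.ext (Prod.ext (funext fun j => ?_) (Subtype.ext (congrArg Prod.snd h1)))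
  have h2 : (a.1.1 j : ℝ) / m = (b.1.1 j : ℝ) / m := congrFun (congrArg Prod.fst h1) j
  have h3 : (a.1.1 j : ℝ) = (b.1.1 j : ℝ) := by
    rwa [div_left_inj' h0] at h2
  exact Int.cast_injective h3

/-- the inclusion is open -/
theorem isOpenMap_divMap (ψ : κ → Dual P) (U : AddSubgroup P) [IsTopologicalAddGroup P]
    (hU : IsOpen (U : Set P)) {m : ℕ} (hm : m ≠ 0) (hP : ∀ y ∈ U, m • y = 0) :
    IsOpenMap (divMap ψ U m) := by
  have h0 : (m : ℝ) ≠ 0 := Nat.cast_ne_zero.2 hm
  have hm0 : (0 : ℝ) < m := Nat.cast_pos.2 (Nat.pos_of_ne_zero hm)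
  -- the integer vectors
  have hint : ∀ z : graphB ψ, z.1.2 ∈ U → ∃ n : κ → ℤ, ∀ j, (n j : ℝ) / m = z.1.1 j := by
    intro z hz
    have h1 : ∀ j, ∃ n : ℤ, (n : ℝ) / m = z.1.1 j := by
      intro j
      have h2 : (((m : ℝ) * z.1.1 j : ℝ) : UnitAddCircle) = 0 := by
        have h3 : (((m : ℝ) * z.1.1 j : ℝ) : UnitAddCircle) =
            m • ((z.1.1 j : ℝ) : UnitAddCircle) := by
          rw [← AddCircle.coe_nsmul, nsmul_eq_mul]
        have h4 : ψ j z.1.2 = ((z.1.1 j : ℝ) : UnitAddCircle) := z.2 j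
        rw [h3, ← h4, ← map_nsmul, hP _ hz, map_zero]
      obtain ⟨n, hn⟩ := (AddCircle.coe_eq_zero_iff (p := (1 : ℝ))).1 h2
      refine ⟨n, ?_⟩
      rw [zsmul_eq_mul, mul_one] at hn
      rw [hn, mul_div_cancel_left₀ _ h0]
    choose n hn using h1
    exact ⟨n, hn⟩
  have hopen : IsOpenMap (divMap ψ U m).toAddMonoidHom := by
    rw [IsTopologicalAddGroup.isOpenMap_iff_nhds_zero]
    intro W hW
    rw [Filter.mem_map] at hW
    obtain ⟨O, hO, hOW⟩ := mem_nhds_subtype _ _ _ |>.1 hW
    have hO' : O ∈ 𝓝 ((0 : κ → ℤ), (0 : U)) := hO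
    rw [nhds_prod_eq, Filter.mem_prod_iff] at hO'
    obtain ⟨O₁, hO₁, O₂, hO₂, hOO⟩ := hO'
    rw [nhds_pi, Filter.mem_pi] at hO₁
    obtain ⟨I, hI, t, ht, htO⟩ := hO₁
    obtain ⟨V, hV, hVO⟩ := mem_nhds_subtype _ _ _ |>.1 hO₂
    have hT : {z : graphB ψ | (∀ j ∈ I, |z.1.1 j| < 1 / m) ∧ z.1.2 ∈ (U : Set P) ∧
        z.1.2 ∈ V} ∈ 𝓝 (0 : graphB ψ) := by
      have hc2 : Continuous fun z : graphB ψ => z.1.2 := continuous_snd.comp continuous_subtype_val
      have h9 : Filter.Tendsto (fun z : graphB ψ => z.1.2) (𝓝 0) (𝓝 (0 : P)) := hc2.tendsto 0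
      refine Filter.inter_mem ?_ (Filter.inter_mem ?_ (h9 hV))
      · refine (Filter.eventually_all_finite hI (l := 𝓝 (0 : graphB ψ))
          (p := fun j z => |z.1.1 j| < 1 / m)).2 fun j _ => ?_
        have hc : Continuous fun z : graphB ψ => |z.1.1 j| :=
          ((continuous_apply j).comp (continuous_fst.comp continuous_subtype_val)).abs
        refine hc.continuousAt.eventually_lt continuousAt_const ?_
        show |((0 : κ → ℝ) j)| < 1 / m
        rw [Pi.zero_apply, abs_zero]
        exact one_div_pos.2 hm0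
      · exact h9 (hU.mem_nhds U.zero_mem)
    refine Filter.mem_of_superset hT ?_
    rintro z ⟨hz1, hz2, hz3⟩
    obtain ⟨n, hn⟩ := hint z hz2
    have hmem : ((n, ⟨z.1.2, hz2⟩) : (κ → ℤ) × U) ∈ divGraph ψ U m := by
      intro j
      show ψ j z.1.2 = (((n j : ℝ) / m : ℝ) : UnitAddCircle)
      rw [hn j]
      exact z.2 j
    have hzO : ((n, ⟨z.1.2, hz2⟩) : (κ → ℤ) × U) ∈ O := by
      refine hOO ⟨htO fun j hj => ?_, hVO hz3⟩
      have h2 : n j = 0 := by
        have h3 : |(n j : ℝ)| < 1 := by
          have h4 := hz1 j hj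
          rw [← hn j, abs_div, Nat.abs_cast, div_lt_div_iff_of_pos_right hm0] at h4
          exact h4
        have h5 : |n j| < 1 := by
          exact_mod_cast h3
        exact Int.abs_lt_one_iff.1 h5
      show n j ∈ t j
      rw [h2]
      exact mem_of_mem_nhds (ht j)
    have h5 : (⟨(n, ⟨z.1.2, hz2⟩), hmem⟩ : divGraph ψ U m) ∈
        (divMap ψ U m).toAddMonoidHom ⁻¹' W := hOW hzO
    have h6 : divMap ψ U m ⟨(n, ⟨z.1.2, hz2⟩), hmem⟩ = z :=
      Subtype.ext (Prod.ext (funext fun j => hn j) rfl)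
    have h7 : divMap ψ U m ⟨(n, ⟨z.1.2, hz2⟩), hmem⟩ ∈ W := h5
    rwa [h6] at h7
  exact hopen

end graph

theorem stronglyReflexive_graphB_of_bounded {κ : Type u} [Countable κ] {P : Type v}
    [AddCommGroup P] [TopologicalSpace P] [NonarchimedeanAddGroup P] [T2Space P]
    (h : StronglyReflexive P) {m : ℕ} (hm : m ≠ 0) (U : AddSubgroup P) (hU : IsOpen (U : Set P))
    (hP : ∀ y ∈ U, m • y = 0) (ψ : κ → Dual P) : StronglyReflexive (graphB ψ) := by
  have h1 : StronglyReflexive ((κ → ℤ) × U) :=
    stronglyReflexive_int_of_bounded (h.open_subgroup U hU) hm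
      fun y => Subtype.ext (hP y y.2)
  have hna : NonarchimedeanAddGroup ((κ → ℤ) × U) := inferInstance
  have h2 : StronglyReflexive (divGraph ψ U m) :=
    h1.of_closed (fun H _ ξ => exists_extension_nonarch H ξ) _ (isClosed_divGraph ψ U m)
  exact stronglyReflexive_of_open_injective (divMap ψ U m) (isOpenMap_divMap ψ U hU hm hP)
    (divMap_injective ψ U hm) h2

/-- **The product of a countable power of the real line and a group with an open subgroup of finite
exponent** -/
theorem stronglyReflexive_vec_of_bounded {J : Type u} [Countable J] {P : Type v}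
    [AddCommGroup P] [TopologicalSpace P] [NonarchimedeanAddGroup P] [T2Space P]
    (h : StronglyReflexive P) {m : ℕ} (hm : m ≠ 0) (U : AddSubgroup P) (hU : IsOpen (U : Set P))
    (hP : ∀ y ∈ U, m • y = 0) : StronglyReflexive ((J → ℝ) × P) :=
  stronglyReflexive_vec_of_graphB fun _ _ ψ => stronglyReflexive_graphB_of_bounded h hm U hU hP ψ

/-- **The product of a countable power of the real line and a group with an open subgroup `U` such
that `m U` is contained in a compact subgroup** -/
theorem stronglyReflexive_vec_of_relCompact {J : Type u} [Countable J] {P : Type v}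
    [AddCommGroup P] [TopologicalSpace P] [NonarchimedeanAddGroup P] [T2Space P]
    (h : StronglyReflexive P) {m : ℕ} (hm : m ≠ 0) (U C : AddSubgroup P)
    (hU : IsOpen (U : Set P)) (hC : IsCompact (C : Set P)) (hP : ∀ y ∈ U, m • y ∈ C) :
    StronglyReflexive ((J → ℝ) × P) := by
  have hCc : IsClosed (C : Set P) := hC.isClosed
  let q : P →ₜ+ P ⧸ C :=
    { toAddMonoidHom := QuotientAddGroup.mk' C
      continuous_toFun := continuous_quot_mk }
  have hq : Function.Surjective q := QuotientAddGroup.mk_surjective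
  have hqo : IsOpenMap q := QuotientAddGroup.isOpenMap_coe (N := C)
  have hq0 : ∀ y, q y = 0 ↔ y ∈ C := fun y => QuotientAddGroup.eq_zero_iff y
  have hK : IsCompact {y | q y = 0} := by
    have h1 : {y | q y = 0} = (C : Set P) := Set.ext hq0
    rw [h1]
    exact hC
  have h1 : StronglyReflexive (P ⧸ C) := h.of_compact_ker q hq hqo hK
  have h2 : StronglyReflexive ((J → ℝ) × (P ⧸ C)) := by
    refine stronglyReflexive_vec_of_bounded h1 hm (U.map q.toAddMonoidHom) (hqo _ hU) ?_
    rintro _ ⟨y, hy, rfl⟩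
    show m • q y = 0
    rw [← map_nsmul, hq0]
    exact hP y hy
  let r : (J → ℝ) × P →ₜ+ (J → ℝ) × (P ⧸ C) :=
    { toFun := fun z => (z.1, q z.2)
      map_zero' := by
        show ((0 : J → ℝ), q 0) = 0
        rw [map_zero]
        rfl
      map_add' := fun a b => by
        show (a.1 + b.1, q (a.2 + b.2)) = (a.1, q a.2) + (b.1, q b.2)
        rw [map_add]
        rfl
      continuous_toFun := continuous_fst.prodMk (q.continuous_toFun.comp continuous_snd) }
  refine stronglyReflexive_of_vec r ?_ ?_ ?_ ?_ h2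
  · rintro ⟨x, z⟩
    obtain ⟨y, rfl⟩ := hq z
    exact ⟨(x, y), rfl⟩
  · exact IsOpenMap.id.prodMap hqo
  · have h3 : {z | r z = 0} = ({0} : Set (J → ℝ)) ×ˢ (C : Set P) := by
      ext z
      constructor
      · intro hz
        have h4 : (z.1, q z.2) = 0 := hz
        exact ⟨congrArg Prod.fst h4, (hq0 _).1 (congrArg Prod.snd h4)⟩
      · rintro ⟨h5, h6⟩
        show (z.1, q z.2) = 0
        rw [(hq0 _).2 h6, show z.1 = 0 from h5]
        rfl
    rw [h3]
    exact isCompact_singleton.prod hC
  · rintro ⟨x, y⟩ h3 h4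
    have h5 : (x, q y) = 0 := h3
    have hx : x = 0 := congrArg Prod.fst h5
    have hy : y ≠ 0 := by
      rintro rfl
      apply h4
      rw [hx]
      rfl
    obtain ⟨V, hV⟩ := exists_open_not_mem hy
    obtain ⟨χ, -, hχ⟩ := exists_dual_ne_zero V hV
    exact ⟨χ.comp (ContinuousAddMonoidHom.snd (J → ℝ) P), hχ⟩

end Pool.Agent.Work.MP_c629c8_al
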